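import Pool.Agent.R667.TP.Main

set_option autoImplicit false

open MeasureTheory Filter Topology

namespace Pool.Agent.Results.MP_170125_pr.CoefficientGrowth

open Pool.Agent.R667.TP

universe u

/-- Full answer to Q1 and Q2: in both models `(1/n) log H` and `(1/n) log L` converge almost surely
(hence in probability) to the same constant. -/
theorem result :
    ∃ F : F2 → Rg, (∀ w f, IsFricke w f ↔ f = F w) ∧
      (∃ γ : ℝ, ∀ (Ω : Type u) [MeasurableSpace Ω] (P : Measure Ω) [IsProbabilityMeasure P]
        (s : ℕ → Ω → Letter), ReducedProcess P s → Conv P s F γ) ∧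
      (∀ p : ℝ, 0 < p → p < 1 → ∃ γ : ℝ, ∀ (Ω : Type u) [MeasurableSpace Ω] (P : Measure Ω)
        [IsProbabilityMeasure P] (s : ℕ → Ω → Letter), PositiveProcess p P s → Conv P s F γ) :=
  main

end Pool.Agent.Results.MP_170125_pr.CoefficientGrowth
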